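import Pool.Agent.Y315.CF.Polygon
import Pool.Agent.Y315.CF.Indep

/-! # Measures invariant under two multiplications whose fixed points are dense

For `1 < p < q` with `gcd (p - 1, q - 1) ^ 6 ≥ C q ^ 5` (such `p, q` are multiplicatively
independent) the common fixed points `k / gcd (p - 1, q - 1)` of `x ↦ p x` and `x ↦ q x` maximise
the integral of every translate of a given smooth function with one nondegenerate maximum over all
jointly invariant probability measures, and only measures on common fixed points do. The set of the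
first Fourier coefficients of the jointly invariant probability measures is the convex hull of the
`gcd (p - 1, q - 1)`-th roots of unity. -/

namespace Pool.Agent.Results.MP_96e181_an.CommonFixedPoints

open MeasureTheory

/-- Part one: ergodic optimisation of smooth functions. Part two: multiplicative independence and
the exact set of first Fourier coefficients. -/
theorem result :
    (∀ (F : UnitAddCircle → ℝ) (x₀ : UnitAddCircle),
      ContDiff ℝ 2 (fun x : ℝ => F (x : UnitAddCircle)) →
      (∀ y, y ≠ x₀ → F y < F x₀) →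
      deriv (deriv fun x : ℝ => F (x₀ + (x : UnitAddCircle))) 0 < 0 →
      ∃ C : ℝ, ∀ p q : ℕ, 1 < p → p < q →
        C * (q : ℝ) ^ 5 ≤ (((p - 1).gcd (q - 1) : ℕ) : ℝ) ^ 6 →
        ∀ t : UnitAddCircle, ∃ z : UnitAddCircle, p • z = z ∧ q • z = z ∧
          ∀ μ : Measure UnitAddCircle, IsProbabilityMeasure μ →
            MeasurePreserving (fun x => p • x) μ μ → MeasurePreserving (fun x => q • x) μ μ →
            ∫ x, F (x - t) ∂μ ≤ F (z - t) ∧
              (∫ x, F (x - t) ∂μ = F (z - t) → ∀ᵐ x ∂μ, p • x = x ∧ q • x = x)) ∧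
    (∃ C : ℝ, ∀ p q : ℕ, 1 < p → p < q →
      C * (q : ℝ) ^ 5 ≤ (((p - 1).gcd (q - 1) : ℕ) : ℝ) ^ 6 →
      Irrational (Real.log p / Real.log q) ∧
      {c : ℂ | ∃ μ : Measure UnitAddCircle, IsProbabilityMeasure μ ∧
        MeasurePreserving (fun x => p • x) μ μ ∧ MeasurePreserving (fun x => q • x) μ μ ∧
        c = ∫ x, fourier 1 x ∂μ} = convexHull ℝ {z : ℂ | z ^ (p - 1).gcd (q - 1) = 1}) := by
  constructor
  · intro F x₀ hF hmax hnd
    exact Pool.Agent.Y315.CF.main F hF x₀ hmax hnd
  · obtain ⟨C, hC⟩ := Pool.Agent.Y315.CF.polygon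
    refine ⟨max C 2, fun p q hp hpq h => ⟨?_, ?_⟩⟩
    · apply Pool.Agent.Y315.CF.irrational_of_gcd hp hpq
      exact (mul_le_mul_of_nonneg_right (le_max_right C 2) (by positivity)).trans h
    · exact hC p q hp hpq
        ((mul_le_mul_of_nonneg_right (le_max_left C 2) (by positivity)).trans h)

end Pool.Agent.Results.MP_96e181_an.CommonFixedPoints
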