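import Pool.Agent.Y314.FD.Final

/-!
# The exceptional set of the `×p, ×q` orbit averages: exact Hausdorff dimension
-/

set_option autoImplicit false

/-- For coprime `p, q ≥ 2` and `0 ≤ s ≤ 1`: the set of all points `x` of the circle for which there
is a closed arc `J` with `liminf A_N(x, J) < (1 - (1 - s)^2) |J|` has Hausdorff dimension exactly
`s`, where `A_N(x, J)` is the proportion of the integers `n = p^i q^j ≤ N` with `n x ∈ J`. -/
theorem Pool.Agent.Results.MP_96e181_an.DimensionSpectrum.result :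
    ∀ (p q : ℕ), 2 ≤ p → 2 ≤ q → Nat.Coprime p q → ∀ s : ℝ, 0 ≤ s → s ≤ 1 →
      dimH {x : UnitAddCircle | ∃ c : UnitAddCircle, ∃ r : ℝ, 0 < r ∧ r ≤ 1 / 2 ∧
        Filter.liminf (fun N : ℕ => Pool.Agent.Y314.FD.freq p q N x c r) Filter.atTop <
          (1 - (1 - s) ^ 2) * (2 * r)} = ENNReal.ofReal s :=
  fun _ _ hp hq hpq _ hs0 hs1 => Pool.Agent.Y314.FD.spectrum hp hq hpq hs0 hs1
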