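import Pool.Agent.Y139.GR.Inv

/-!
# Fourier coefficients bounded away from zero

Measures on the circle whose nonzero Fourier coefficients are bounded away from zero, and the
consequences for measures which are invariant under `x ↦ p x`.
-/

set_option autoImplicit false

open MeasureTheory

/-- (1) A finite atomless measure on `R/Z` whose nonzero Fourier coefficients are bounded away from zero
has only finitely many nonzero Fourier coefficients.
(2) Let `p ≥ 2` and let `μ` be an atomless probability measure on `R/Z`, invariant under `x ↦ p x` and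
different from Lebesgue measure.  For every `d ≥ 1` and `ε > 0` there is an `n` such that the Fourier
coefficient of `μ` at `d n` is nonzero and less than `ε` in absolute value.
(3) For all `p, q ≥ 2`: every atomless probability measure invariant under `x ↦ p x` and `x ↦ q x` is
Lebesgue measure if and only if for each of them the nonzero Fourier coefficients are bounded away
from zero. -/
theorem Pool.Agent.Results.MP_96e181_an.GapRigidity.result :
    (∀ μ : Measure UnitAddCircle, IsFiniteMeasure μ → (∀ x : UnitAddCircle, μ {x} = 0) →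
      ∀ δ : ℝ, 0 < δ →
      (∀ n : ℤ, ∫ x, (fourier n x : ℂ) ∂μ = 0 ∨ δ ≤ ‖∫ x, (fourier n x : ℂ) ∂μ‖) →
      {n : ℤ | ∫ x, (fourier n x : ℂ) ∂μ ≠ 0}.Finite) ∧
    (∀ p : ℕ, 2 ≤ p → ∀ μ : Measure UnitAddCircle, IsProbabilityMeasure μ →
      (∀ x : UnitAddCircle, μ {x} = 0) →
      MeasurePreserving (fun x : UnitAddCircle => p • x) μ μ → μ ≠ volume →
      ∀ d : ℕ, 1 ≤ d → ∀ ε : ℝ, 0 < ε → ∃ n : ℤ,
        0 < ‖∫ x, (fourier (d * n) x : ℂ) ∂μ‖ ∧ ‖∫ x, (fourier (d * n) x : ℂ) ∂μ‖ < ε) ∧
    (∀ p q : ℕ, 2 ≤ p → 2 ≤ q →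
      ((∀ μ : Measure UnitAddCircle, IsProbabilityMeasure μ → (∀ x : UnitAddCircle, μ {x} = 0) →
          MeasurePreserving (fun x : UnitAddCircle => p • x) μ μ →
          MeasurePreserving (fun x : UnitAddCircle => q • x) μ μ → μ = volume) ↔
        (∀ μ : Measure UnitAddCircle, IsProbabilityMeasure μ → (∀ x : UnitAddCircle, μ {x} = 0) →
          MeasurePreserving (fun x : UnitAddCircle => p • x) μ μ →
          MeasurePreserving (fun x : UnitAddCircle => q • x) μ μ →
          ∃ δ : ℝ, 0 < δ ∧ ∀ n : ℤ, ∫ x, (fourier n x : ℂ) ∂μ = 0 ∨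
            δ ≤ ‖∫ x, (fourier n x : ℂ) ∂μ‖))) := by
  refine ⟨fun μ hμ hat δ hδ hgap => Pool.Agent.Y139.GR.gap_finite hat hδ hgap,
    fun p hp μ hμ hat hinv hne d hd ε hε => ?_, fun p q hp hq => ⟨fun h μ hμ hat h1 h2 => ?_,
      fun h μ hμ hat h1 h2 => ?_⟩⟩
  · by_contra hcon
    push Not at hcon
    refine hne (Pool.Agent.Y139.GR.rigid hat hp hinv hd hε fun n => ?_)
    by_cases h0 : Pool.Agent.Y139.GR.fc μ (d * n) = 0
    · exact Or.inl h0
    · exact Or.inr (hcon n (norm_pos_iff.2 h0))
  · refine ⟨1, one_pos, fun n => ?_⟩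
    have h3 := Pool.Agent.Y139.GR.fc_volume n
    rw [h μ hμ hat h1 h2]
    unfold Pool.Agent.Y139.GR.fc at h3
    rw [h3]
    split_ifs with hn
    · right; simp
    · left; rfl
  · obtain ⟨δ, hδ, hgap⟩ := h μ hμ hat h1 h2
    exact Pool.Agent.Y139.GR.rigid hat hp h1 (d := 1) le_rfl hδ fun n => by
      rw [Nat.cast_one, one_mul]; exact hgap n
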