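import Pool.Agent.Y315.LV.Main

/-!
# Lebesgue measure is never a strict extreme point in any smooth direction

Let `P` be any finite set of primes and let `f` be a continuous real function on the circle whose
Fourier coefficients satisfy `∑ d(|n|) |f^(n)| < ∞` (`d` = number of divisors). Then either every
probability measure invariant under all the maps `x ↦ p x`, `p ∈ P`, gives `f` the same integral
as Lebesgue measure, or there are finitely supported invariant probability measures on both sides: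
one with a strictly smaller and one with a strictly larger integral.
-/

namespace Pool.Agent.Results.MP_96e181_an.PositiveLivsic

open MeasureTheory Pool.Agent.Y315.LV

lemma dsum_of {f : C(UnitAddCircle, ℝ)}
    (hf : Summable fun n : ℤ => (n.natAbs.divisors.card : ℝ) *
      ‖fourierCoeff (fun x : UnitAddCircle => (f x : ℂ)) n‖) : Dsum f := hf

lemma co_neg (f : C(UnitAddCircle, ℝ)) (n : ℤ) : co (-f) n = - co f n := by
  unfold co fourierCoeff
  rw [← integral_neg]
  congr 1
  funext x
  simp [fC]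

lemma dsum_neg {f : C(UnitAddCircle, ℝ)} (h : Dsum f) : Dsum (-f) := by
  unfold Dsum at *
  simpa [co_neg] using h

/-- One half of the dichotomy. -/
lemma exists_larger (P : Finset ℕ) (hP : ∀ p ∈ P, p.Prime) (f : C(UnitAddCircle, ℝ))
    (hf : Dsum f) (μ : Measure UnitAddCircle) (hμ : IsProbabilityMeasure μ)
    (hinv : ∀ p ∈ P, MeasurePreserving (fun x : UnitAddCircle => p • x) μ μ)
    (hne : ∫ x, f x ∂μ ≠ ∫ x, f x ∂AddCircle.haarAddCircle) :
    ∃ ν : Measure UnitAddCircle, IsProbabilityMeasure ν ∧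
      (∀ p ∈ P, MeasurePreserving (fun x : UnitAddCircle => p • x) ν ν) ∧
      (∃ S : Finset UnitAddCircle, ν (S : Set UnitAddCircle)ᶜ = 0) ∧
      ∫ x, f x ∂AddCircle.haarAddCircle < ∫ x, f x ∂ν := by
  by_contra hcon
  push Not at hcon
  exact hne (integral_eq hP (fun ν h1 h2 h3 => hcon ν h1 h2 h3) hf μ hinv)

/-- **The dichotomy.** -/
theorem result (P : Finset ℕ) (hP : ∀ p ∈ P, p.Prime) (f : C(UnitAddCircle, ℝ))
    (hf : Summable fun n : ℤ => (n.natAbs.divisors.card : ℝ) *
      ‖fourierCoeff (fun x : UnitAddCircle => (f x : ℂ)) n‖) :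
    (∀ μ : Measure UnitAddCircle, IsProbabilityMeasure μ →
      (∀ p ∈ P, MeasurePreserving (fun x : UnitAddCircle => p • x) μ μ) →
      ∫ x, f x ∂μ = ∫ x, f x ∂AddCircle.haarAddCircle) ∨
    ((∃ ν : Measure UnitAddCircle, IsProbabilityMeasure ν ∧
      (∀ p ∈ P, MeasurePreserving (fun x : UnitAddCircle => p • x) ν ν) ∧
      (∃ S : Finset UnitAddCircle, ν (S : Set UnitAddCircle)ᶜ = 0) ∧
      ∫ x, f x ∂ν < ∫ x, f x ∂AddCircle.haarAddCircle) ∧
     (∃ ν : Measure UnitAddCircle, IsProbabilityMeasure ν ∧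
      (∀ p ∈ P, MeasurePreserving (fun x : UnitAddCircle => p • x) ν ν) ∧
      (∃ S : Finset UnitAddCircle, ν (S : Set UnitAddCircle)ᶜ = 0) ∧
      ∫ x, f x ∂AddCircle.haarAddCircle < ∫ x, f x ∂ν)) := by
  by_cases h : ∀ μ : Measure UnitAddCircle, IsProbabilityMeasure μ →
      (∀ p ∈ P, MeasurePreserving (fun x : UnitAddCircle => p • x) μ μ) →
      ∫ x, f x ∂μ = ∫ x, f x ∂AddCircle.haarAddCircle
  · exact Or.inl h
  · right
    push Not at h
    obtain ⟨μ, hμ, hinv, hne⟩ := h
    refine ⟨?_, exists_larger P hP f (dsum_of hf) μ hμ hinv hne⟩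
    have hne' : ∫ x, (-f) x ∂μ ≠ ∫ x, (-f) x ∂AddCircle.haarAddCircle := by
      simp only [ContinuousMap.neg_apply, integral_neg]
      exact fun h => hne (neg_injective h)
    obtain ⟨ν, h1, h2, h3, h4⟩ := exists_larger P hP (-f) (dsum_neg (dsum_of hf)) μ hμ hinv hne'
    refine ⟨ν, h1, h2, h3, ?_⟩
    simp only [ContinuousMap.neg_apply, integral_neg] at h4
    linarith

end Pool.Agent.Results.MP_96e181_an.PositiveLivsic
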